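import Mathlib

/-!
# A weight-preserving isometry of the five-qubit code that extends to no monomial transformation
-/

namespace Pool.Agent.Results.MP_711a76_lc.FiveQubitCode

/-- `A_q^n` with `A_q = F_q²`. -/
abbrev Vec (q n : ℕ) : Type := Fin n → ZMod q × ZMod q

/-- The symplectic form `∑ (a_i b'_i - a'_i b_i)`. -/
def sympl {q n : ℕ} (u v : Vec q n) : ZMod q := ∑ i, ((u i).1 * (v i).2 - (v i).1 * (u i).2)

/-- The weight: the number of nonzero coordinates. -/
def wt {q n : ℕ} (u : Vec q n) : ℕ := (Finset.univ.filter (fun i => u i ≠ 0)).card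

/-- `C` is an `F_q`-subspace of `A_q^n`. -/
def IsSubspace {q n : ℕ} (C : Set (Vec q n)) : Prop :=
  (0 : Vec q n) ∈ C ∧ (∀ u ∈ C, ∀ v ∈ C, u + v ∈ C) ∧ ∀ t : ZMod q, ∀ u ∈ C, t • u ∈ C

/-- The symplectic dual `C^⊥`. -/
def dual {q n : ℕ} (C : Set (Vec q n)) : Set (Vec q n) := {u | ∀ v ∈ C, sympl u v = 0}

/-- A stabilizer code is a subspace `C` with `C ⊆ C^⊥`. -/
def IsStabilizer {q n : ℕ} (C : Set (Vec q n)) : Prop := IsSubspace C ∧ C ⊆ dual C

open Classical in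
/-- The distance of a code: the minimal weight of a vector in `C^⊥ \ C` if `C ≠ C^⊥`, and the
minimal weight of a nonzero vector of `C` if `C = C^⊥`. -/
noncomputable def dist {q n : ℕ} (C : Set (Vec q n)) : ℕ :=
  if C = dual C then sInf {w | ∃ u ∈ C, u ≠ 0 ∧ wt u = w}
  else sInf {w | ∃ u ∈ dual C, u ∉ C ∧ wt u = w}

/-- `f` restricts to a weight-preserving isometry `C → D`: a linear bijection from `C` to `D`
with `wt (f u) = wt u` for all `u ∈ C`. -/
def IsIsometry {q n : ℕ} (C D : Set (Vec q n)) (f : Vec q n → Vec q n) : Prop :=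
  Set.BijOn f C D ∧ (∀ u ∈ C, ∀ v ∈ C, f (u + v) = f u + f v) ∧
    (∀ t : ZMod q, ∀ u ∈ C, f (t • u) = t • f u) ∧ ∀ u ∈ C, wt (f u) = wt u

/-- The group `GL(2, q)` of linear automorphisms of `A_q = F_q²`. -/
abbrev GL2 (q : ℕ) : Type := (ZMod q × ZMod q) ≃ₗ[ZMod q] (ZMod q × ZMod q)

/-- The monomial transformation `(u_1, …, u_n) ↦ (g_1 u_{π⁻¹(1)}, …, g_n u_{π⁻¹(n)})` with
`π ∈ S_n` and `g_i ∈ GL(2, q)`. -/
def monomial {q n : ℕ} (π : Equiv.Perm (Fin n)) (g : Fin n → GL2 q) (u : Vec q n) : Vec q n :=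
  fun i => g i (u (π.symm i))

/-! ### The five-qubit code -/

/-- The encoding map: `c ↦ c₀ XZZXI + c₁ IXZZX + c₂ XIXZZ + c₃ ZXIXZ`. -/
def enc : (Fin 4 → ZMod 2) →ₗ[ZMod 2] Vec 2 5 where
  toFun c := ![(c 0 + c 2, c 3), (c 1 + c 3, c 0), (c 2, c 0 + c 1), (c 0 + c 3, c 1 + c 2),
    (c 1, c 2 + c 3)]
  map_add' c d := by
    funext i
    fin_cases i <;> ext <;> simp <;> ring
  map_smul' t c := by
    funext i
    fin_cases i <;> ext <;> simp <;> ring

theorem enc_inj' : ∀ c d : Fin 4 → ZMod 2, enc c = enc d → c = d := by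
  decide +kernel

theorem enc_inj : Function.Injective enc := fun c d h => enc_inj' c d h

/-- The five-qubit code. -/
def code : Set (Vec 2 5) := Set.range enc

/-- A linear bijection of `F_2^4`. -/
def T : (Fin 4 → ZMod 2) ≃ₗ[ZMod 2] (Fin 4 → ZMod 2) where
  toFun c := ![c 1 + c 2, c 3, c 2, c 0]
  invFun c := ![c 3, c 0 + c 2, c 2, c 1]
  map_add' c d := by
    funext i
    fin_cases i <;> simp <;> ring
  map_smul' t c := by
    funext i
    fin_cases i <;> simp <;> ring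
  left_inv c := by
    funext i
    fin_cases i <;> simp [add_assoc, CharTwo.add_self_eq_zero]
  right_inv c := by
    funext i
    fin_cases i <;> simp [add_assoc, CharTwo.add_self_eq_zero]

/-- The isometry, extended by `0` outside the code. -/
noncomputable def f : Vec 2 5 → Vec 2 5 := Function.extend enc (fun c => enc (T c)) 0

theorem f_enc (c : Fin 4 → ZMod 2) : f (enc c) = enc (T c) := by
  unfold f
  rw [enc_inj.extend_apply]

theorem wt_enc : ∀ c : Fin 4 → ZMod 2, c ≠ 0 → wt (enc c) = 4 := by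
  decide +kernel

theorem isotropic : ∀ c d : Fin 4 → ZMod 2, sympl (enc c) (enc d) = 0 := by
  decide +kernel

/-- a vector of weight at most two orthogonal to the code is zero -/
theorem small : ∀ a b c d e a' b' c' d' e' : ZMod 2,
    (sympl (![(a, a'), (b, b'), (c, c'), (d, d'), (e, e')] : Vec 2 5) (enc ![1, 0, 0, 0]) = 0 ∧
    sympl (![(a, a'), (b, b'), (c, c'), (d, d'), (e, e')] : Vec 2 5) (enc ![0, 1, 0, 0]) = 0 ∧
    sympl (![(a, a'), (b, b'), (c, c'), (d, d'), (e, e')] : Vec 2 5) (enc ![0, 0, 1, 0]) = 0 ∧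
    sympl (![(a, a'), (b, b'), (c, c'), (d, d'), (e, e')] : Vec 2 5) (enc ![0, 0, 0, 1]) = 0) →
    wt (![(a, a'), (b, b'), (c, c'), (d, d'), (e, e')] : Vec 2 5) ≤ 2 →
    (![(a, a'), (b, b'), (c, c'), (d, d'), (e, e')] : Vec 2 5) = 0 := by
  decide +kernel

theorem stab : IsStabilizer code := by
  refine ⟨⟨⟨0, map_zero _⟩, ?_, ?_⟩, ?_⟩
  · rintro u ⟨c, rfl⟩ v ⟨d, rfl⟩
    exact ⟨c + d, map_add _ _ _⟩
  · rintro t u ⟨c, rfl⟩
    exact ⟨t • c, map_smul _ _ _⟩
  · rintro u ⟨c, rfl⟩ v ⟨d, rfl⟩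
    exact isotropic c d

theorem dist_code : 2 < dist code := by
  have hsmall : ∀ u ∈ dual code, wt u ≤ 2 → u = 0 := by
    intro u hu hw
    have hu' : u = ![((u 0).1, (u 0).2), ((u 1).1, (u 1).2), ((u 2).1, (u 2).2),
        ((u 3).1, (u 3).2), ((u 4).1, (u 4).2)] := by
      funext i
      fin_cases i <;> rfl
    have hm : ∀ c, enc c ∈ code := fun c => ⟨c, rfl⟩
    have h := small (u 0).1 (u 1).1 (u 2).1 (u 3).1 (u 4).1 (u 0).2 (u 1).2 (u 2).2 (u 3).2 (u 4).2
    rw [← hu'] at h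
    exact h ⟨hu _ (hm _), hu _ (hm _), hu _ (hm _), hu _ (hm _)⟩ hw
  unfold dist
  split_ifs with hC
  · have hne : {w | ∃ u ∈ code, u ≠ 0 ∧ wt u = w}.Nonempty := by
      refine ⟨4, enc ![1, 0, 0, 0], ⟨_, rfl⟩, ?_, wt_enc _ (by decide)⟩
      intro h
      have := wt_enc ![1, 0, 0, 0] (by decide)
      rw [h] at this
      exact absurd this (by decide)
    obtain ⟨u, hu, hu0, hw⟩ := Nat.sInf_mem hne
    by_contra hlt
    exact hu0 (hsmall u (stab.2 hu) (by omega))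
  · have hne : {w | ∃ u ∈ dual code, u ∉ code ∧ wt u = w}.Nonempty := by
      have : ∃ u ∈ dual code, u ∉ code := by
        by_contra hno
        push Not at hno
        exact hC (Set.Subset.antisymm stab.2 hno)
      obtain ⟨u, h1, h2⟩ := this
      exact ⟨_, u, h1, h2, rfl⟩
    obtain ⟨u, hu, hu0, hw⟩ := Nat.sInf_mem hne
    by_contra hlt
    have := hsmall u hu (by omega)
    rw [this] at hu0
    exact hu0 stab.1.1

/-- The zero set of the first coordinate of `f` is not the zero set of any coordinate. -/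
theorem kernels : ∀ i : Fin 5, ∃ c : Fin 4 → ZMod 2,
    ¬ ((enc (T c)) 0 = 0 ↔ (enc c) i = 0) := by
  decide +kernel

/-- There are a prime `q`, stabilizer codes `C`, `D` of distance greater than `2` and a
weight-preserving linear bijection `C → D` that extends to no monomial transformation. -/
theorem result : ∃ (q n : ℕ) (C D : Set (Vec q n)), q.Prime ∧ IsStabilizer C ∧ IsStabilizer D ∧
    2 < dist C ∧ 2 < dist D ∧ ∃ f : Vec q n → Vec q n, IsIsometry C D f ∧
      ¬ ∃ (π : Equiv.Perm (Fin n)) (g : Fin n → GL2 q), ∀ c ∈ C, monomial π g c = f c := by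
  refine ⟨2, 5, code, code, Nat.prime_two, stab, stab, dist_code, dist_code, f,
    ⟨⟨?_, ?_, ?_⟩, ?_, ?_, ?_⟩, ?_⟩
  · rintro u ⟨c, rfl⟩
    exact ⟨T c, (f_enc c).symm⟩
  · rintro u ⟨c, rfl⟩ v ⟨d, rfl⟩ h
    rw [f_enc, f_enc] at h
    rw [T.injective (enc_inj h)]
  · rintro u ⟨c, rfl⟩
    exact ⟨enc (T.symm c), ⟨_, rfl⟩, by rw [f_enc, T.apply_symm_apply]⟩
  · rintro u ⟨c, rfl⟩ v ⟨d, rfl⟩
    rw [← map_add, f_enc, f_enc, f_enc, map_add, map_add]
  · rintro t u ⟨c, rfl⟩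
    rw [← map_smul, f_enc, f_enc, map_smul, map_smul]
  · rintro u ⟨c, rfl⟩
    rw [f_enc]
    by_cases h : c = 0
    · rw [h, map_zero]
    · rw [wt_enc c h, wt_enc (T c) (by simpa using h)]
  · rintro ⟨π, g, h⟩
    obtain ⟨c, hc⟩ := kernels (π.symm 0)
    apply hc
    have h1 := congrFun (h (enc c) ⟨c, rfl⟩) 0
    rw [f_enc] at h1
    unfold monomial at h1
    rw [← h1]
    simp

end Pool.Agent.Results.MP_711a76_lc.FiveQubitCode
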